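import Mathlib

/-!
# Chains mod 2, the topological Hall theorem

`Ch V` are the chains with coefficients in `ZMod 2` on the finite subsets of `V`, `bd` is the
boundary, `Conn X m` says that the reduced homology of the family `X` of simplices vanishes up to
dimension `m - 2`. `topHall` is the topological version of Hall's theorem.
-/

namespace Pool.Agent.Helper48.TH

open Finset

/-- Chains with coefficients in `ZMod 2`. -/
abbrev Ch (V : Type) := Finset V → ZMod 2

theorem add_self2 (a : ZMod 2) : a + a = 0 := CharTwo.add_self_eq_zero a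

theorem eq_of_add2 {a b : ZMod 2} (h : a + b = 0) : a = b := by
  have h1 : a + b + b = b := by rw [h, zero_add]
  rwa [add_assoc, add_self2, add_zero] at h1

variable {V : Type} [Fintype V] [DecidableEq V]

/-- The boundary. -/
def bd (c : Ch V) : Ch V := fun τ => ∑ v ∈ univ.filter (fun v => v ∉ τ), c (insert v τ)

theorem bd_apply (c : Ch V) (τ : Finset V) :
    bd c τ = ∑ v ∈ univ.filter (fun v => v ∉ τ), c (insert v τ) := rfl

theorem bd_add (c e : Ch V) : bd (c + e) = bd c + bd e := by
  funext τ
  simp only [bd_apply, Pi.add_apply, Finset.sum_add_distrib]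

theorem bd_sum {ι : Type} (s : Finset ι) (c : ι → Ch V) :
    bd (∑ i ∈ s, c i) = ∑ i ∈ s, bd (c i) := by
  classical
  induction s using Finset.induction_on with
  | empty =>
    funext τ
    simp [bd_apply]
  | insert a s ha ih => rw [Finset.sum_insert ha, Finset.sum_insert ha, bd_add, ih]

theorem bd_bd (c : Ch V) : bd (bd c) = 0 := by
  funext τ
  have h1 : bd (bd c) τ = ∑ q ∈ (univ : Finset (V × V)).filter
      (fun q => q.1 ∉ τ ∧ q.2 ∉ τ ∧ q.1 ≠ q.2), c (insert q.2 (insert q.1 τ)) := by
    simp only [bd_apply]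
    rw [Finset.sum_sigma']
    refine Finset.sum_bij' (fun q _ => (q.1, q.2)) (fun q _ => ⟨q.1, q.2⟩) ?_ ?_ ?_ ?_ ?_
    · intro q hq
      simp only [Finset.mem_sigma, Finset.mem_filter, Finset.mem_univ, true_and,
        Finset.mem_insert, not_or] at hq ⊢
      exact ⟨hq.1, hq.2.2, fun h => hq.2.1 h.symm⟩
    · intro q hq
      simp only [Finset.mem_sigma, Finset.mem_filter, Finset.mem_univ, true_and,
        Finset.mem_insert, not_or] at hq ⊢
      exact ⟨hq.1, fun h => hq.2.2 h.symm, hq.2.1⟩
    · intro q _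
      rfl
    · intro q _
      rfl
    · intro q _
      rfl
  rw [h1, Pi.zero_apply]
  refine Finset.sum_involution (fun q _ => (q.2, q.1)) ?_ ?_ ?_ ?_
  · intro q _
    simp only
    rw [Finset.insert_comm]
    exact add_self2 _
  · intro q hq _ h
    simp only [Finset.mem_filter, Finset.mem_univ, true_and] at hq
    exact hq.2.2 (by rw [Prod.ext_iff] at h; exact h.2)
  · intro q hq
    simp only [Finset.mem_filter, Finset.mem_univ, true_and] at hq ⊢
    exact ⟨hq.2.1, hq.1, hq.2.2.symm⟩
  · intro q _
    rfl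

/-- `c` is supported on the members of `X` with `n` elements. -/
def Supp (X : Set (Finset V)) (n : ℕ) (c : Ch V) : Prop := ∀ σ, c σ ≠ 0 → σ ∈ X ∧ σ.card = n

/-- The reduced homology mod 2 of `X` vanishes up to dimension `m - 2`. -/
def Conn (X : Set (Finset V)) (m : ℕ) : Prop :=
  ∀ n, n < m → ∀ z : Ch V, Supp X n z → bd z = 0 → ∃ c : Ch V, Supp X (n + 1) c ∧ bd c = z

theorem Supp.sum {ι : Type} {X : Set (Finset V)} {n : ℕ} {s : Finset ι} {c : ι → Ch V}
    (h : ∀ i ∈ s, Supp X n (c i)) : Supp X n (∑ i ∈ s, c i) := by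
  intro σ hσ
  rw [Finset.sum_apply] at hσ
  obtain ⟨i, hi, h1⟩ := Finset.exists_ne_zero_of_sum_ne_zero hσ
  exact h i hi σ h1

/-- The sum of a symmetric family over ordered pairs vanishes. -/
theorem sum_pairs {I M : Type} [DecidableEq I] (S : Finset I) (c : Finset I → Ch M) :
    ∑ i ∈ S, ∑ j ∈ S.erase i, c ((S.erase i).erase j) = 0 := by
  rw [Finset.sum_sigma']
  funext σ
  rw [Finset.sum_apply, Pi.zero_apply]
  refine Finset.sum_involution (fun q _ => ⟨q.2, q.1⟩) ?_ ?_ ?_ ?_
  · intro q _
    simp only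
    rw [Finset.erase_right_comm]
    exact add_self2 _
  · intro q hq _ h
    simp only [Finset.mem_sigma, Finset.mem_erase] at hq
    rw [Sigma.ext_iff] at h
    exact hq.2.1 h.1
  · intro q hq
    simp only [Finset.mem_sigma, Finset.mem_erase] at hq ⊢
    exact ⟨hq.2.2, hq.2.1.symm, hq.1⟩
  · intro q _
    rfl

section Hall

variable {I : Type} [Fintype I] [DecidableEq I]

/-- The members of `X` over `S`. -/
def Over (p : V → I) (X : Set (Finset V)) (S : Finset I) : Set (Finset V) :=
  {σ | σ ∈ X ∧ ∀ v ∈ σ, p v ∈ S}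

theorem exists_family (p : V → I) (X : Set (Finset V)) (h0 : ∅ ∈ X)
    (hX : ∀ S : Finset I, Conn (Over p X S) S.card) (n : ℕ) :
    ∃ c : Finset I → Ch V, c ∅ = (fun σ => if σ = ∅ then 1 else 0) ∧
      ∀ S : Finset I, S.card ≤ n → Supp (Over p X S) S.card (c S) ∧
        bd (c S) = ∑ i ∈ S, c (S.erase i) := by
  classical
  induction n with
  | zero =>
    refine ⟨fun _ σ => if σ = ∅ then 1 else 0, rfl, ?_⟩
    intro S hS
    have hS' : S = ∅ := Finset.card_eq_zero.1 (Nat.le_zero.1 hS)
    subst hS'
    refine ⟨?_, ?_⟩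
    · intro σ hσ
      by_cases h : σ = ∅
      · subst h
        exact ⟨⟨h0, by simp⟩, rfl⟩
      · simp [h] at hσ
    · funext τ
      simp [bd_apply]
  | succ n ih =>
    obtain ⟨c, hc0, hc⟩ := ih
    have hstep : ∀ S : Finset I, S.card = n + 1 → ∃ e : Ch V, Supp (Over p X S) (n + 1) e ∧
        bd e = ∑ i ∈ S, c (S.erase i) := by
      intro S hS
      have hcard : ∀ i ∈ S, (S.erase i).card = n := fun i hi => by
        rw [Finset.card_erase_of_mem hi, hS]
        rfl
      have h1 := hX S
      rw [hS] at h1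
      refine h1 n (Nat.lt_succ_self n) _ ?_ ?_
      · refine Supp.sum fun i hi => ?_
        intro σ hσ
        have h2 := (hc (S.erase i) (hcard i hi).le).1 σ hσ
        refine ⟨⟨h2.1.1, fun v hv => Finset.mem_of_mem_erase (h2.1.2 v hv)⟩, ?_⟩
        rw [h2.2, hcard i hi]
      · rw [bd_sum]
        rw [Finset.sum_congr rfl fun i hi => (hc (S.erase i) (hcard i hi).le).2]
        exact sum_pairs S c
    choose! e he using hstep
    refine ⟨fun S => if S.card = n + 1 then e S else c S, ?_, ?_⟩
    · simp [hc0]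
    · intro S hS
      have hrhs : (∑ i ∈ S, if (S.erase i).card = n + 1 then e (S.erase i) else c (S.erase i)) =
          ∑ i ∈ S, c (S.erase i) := by
        refine Finset.sum_congr rfl fun i hi => ?_
        rw [if_neg]
        rw [Finset.card_erase_of_mem hi]
        have : 0 < S.card := Finset.card_pos.2 ⟨i, hi⟩
        omega
      simp only
      rw [hrhs]
      by_cases h : S.card = n + 1
      · rw [if_pos h, h]
        exact he S h
      · rw [if_neg h]
        exact hc S (by omega)

/-- The sets which meet each part of `S` once and no other part. -/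
def Rainbow (p : V → I) (S : Finset I) : Finset (Finset V) :=
  univ.filter fun σ => σ.image p = S ∧ σ.card = S.card

theorem mem_rainbow {p : V → I} {S : Finset I} {σ : Finset V} :
    σ ∈ Rainbow p S ↔ σ.image p = S ∧ σ.card = S.card := by
  simp [Rainbow]

theorem injOn_of_rainbow {p : V → I} {S : Finset I} {σ : Finset V} (h : σ ∈ Rainbow p S) :
    Set.InjOn p σ := by
  rw [mem_rainbow] at h
  apply Finset.card_image_iff.1
  rw [h.1, h.2]

theorem mem_of_rainbow {p : V → I} {S : Finset I} {σ : Finset V} (h : σ ∈ Rainbow p S) {v : V}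
    (hv : v ∈ σ) : p v ∈ S := by
  rw [mem_rainbow] at h
  rw [← h.1]
  exact Finset.mem_image_of_mem p hv

theorem rainbow_insert {p : V → I} {S : Finset I} {τ : Finset V} {i : I} (hi : i ∈ S)
    (h : τ ∈ Rainbow p (S.erase i)) {v : V} (hv : p v = i) : insert v τ ∈ Rainbow p S := by
  have h1 := h
  rw [mem_rainbow] at h ⊢
  have hvτ : v ∉ τ := fun hv' => by
    have := mem_of_rainbow h1 hv'
    rw [hv] at this
    exact absurd this (by simp)
  refine ⟨?_, ?_⟩
  · rw [Finset.image_insert, h.1, hv, Finset.insert_erase hi]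
  · rw [Finset.card_insert_of_notMem hvτ, h.2, Finset.card_erase_of_mem hi]
    have : 0 < S.card := Finset.card_pos.2 ⟨i, hi⟩
    omega

theorem rainbow_erase {p : V → I} {S : Finset I} {σ : Finset V}
    (h : σ ∈ Rainbow p S) {v : V} (hv : v ∈ σ) : σ.erase v ∈ Rainbow p (S.erase (p v)) := by
  have hinj := injOn_of_rainbow h
  have hvS := mem_of_rainbow h hv
  rw [mem_rainbow] at h ⊢
  refine ⟨?_, ?_⟩
  · ext i
    simp only [Finset.mem_image, Finset.mem_erase]
    constructor
    · rintro ⟨u, ⟨hu1, hu2⟩, rfl⟩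
      refine ⟨fun he => hu1 (hinj hu2 hv he), ?_⟩
      rw [← h.1]
      exact Finset.mem_image_of_mem p hu2
    · rintro ⟨h1, h2⟩
      rw [← h.1, Finset.mem_image] at h2
      obtain ⟨u, hu, rfl⟩ := h2
      exact ⟨u, ⟨fun he => h1 (by rw [he]), hu⟩, rfl⟩
  · rw [Finset.card_erase_of_mem hv, Finset.card_erase_of_mem hvS, h.2]

/-- Exchange of an element of a rainbow set by one in the same part. -/
theorem rainbow_swap {p : V → I} {S : Finset I} {τ : Finset V} (h : τ ∈ Rainbow p S) {u v : V}
    (hu : u ∈ τ) (hv : v ∉ τ) (huv : p u = p v) : (insert v τ).erase u ∈ Rainbow p S := by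
  have h1 := rainbow_erase h hu
  have h2 := rainbow_insert (mem_of_rainbow h hu) h1 huv.symm
  have huv' : v ≠ u := fun he => hv (he ▸ hu)
  rwa [Finset.erase_insert_of_ne huv']

/-- Exchange of `v` with the element of `τ` in the same part, if there is one. -/
noncomputable def swp (p : V → I) (q : Finset V × V) : Finset V × V := by
  classical exact if h : ∃ u ∈ q.1, p u = p q.2 then ((insert q.2 q.1).erase h.choose, h.choose) else q

theorem swp_eq {p : V → I} {τ : Finset V} (hτ : Set.InjOn p τ) {u v : V} (hu : u ∈ τ)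
    (huv : p u = p v) : swp p (τ, v) = ((insert v τ).erase u, u) := by
  have h : ∃ w ∈ (τ, v).1, p w = p (τ, v).2 := ⟨u, hu, huv⟩
  have h1 : h.choose = u := hτ h.choose_spec.1 hu (h.choose_spec.2.trans huv.symm)
  unfold swp
  rw [dif_pos h, h1]

theorem swp_of_not {p : V → I} {q : Finset V × V} (h : ¬ ∃ u ∈ q.1, p u = p q.2) :
    swp p q = q := by
  unfold swp
  rw [dif_neg h]

theorem sperner (p : V → I) (X : Set (Finset V)) {S : Finset I} {c : Ch V}
    (hc : Supp (Over p X S) S.card c) {i : I} (hi : i ∈ S) :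
    ∑ τ ∈ Rainbow p (S.erase i), bd c τ = ∑ σ ∈ Rainbow p S, c σ := by
  classical
  have h1 : ∑ τ ∈ Rainbow p (S.erase i), bd c τ =
      ∑ q ∈ ((Rainbow p (S.erase i)) ×ˢ (univ : Finset V)).filter (fun q => q.2 ∉ q.1),
        c (insert q.2 q.1) := by
    simp only [bd_apply]
    rw [Finset.sum_sigma']
    refine Finset.sum_bij' (fun q _ => (q.1, q.2)) (fun q _ => ⟨q.1, q.2⟩) ?_ ?_ ?_ ?_ ?_
    · intro q hq
      simp only [Finset.mem_sigma, Finset.mem_filter, Finset.mem_univ, true_and,
        Finset.mem_product, and_true] at hq ⊢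
      exact hq
    · intro q hq
      simp only [Finset.mem_sigma, Finset.mem_filter, Finset.mem_univ, true_and,
        Finset.mem_product, and_true] at hq ⊢
      exact hq
    · intro q _
      rfl
    · intro q _
      rfl
    · intro q _
      rfl
  rw [h1, ← Finset.sum_filter_add_sum_filter_not _ (fun q : Finset V × V => p q.2 = i)]
  have h2 : ∑ q ∈ (((Rainbow p (S.erase i)) ×ˢ (univ : Finset V)).filter
      (fun q => q.2 ∉ q.1)).filter (fun q => ¬ p q.2 = i), c (insert q.2 q.1) = 0 := by
    refine Finset.sum_involution (fun q _ => swp p q) ?_ ?_ ?_ ?_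
    · rintro ⟨τ, v⟩ hq
      simp only [Finset.mem_filter, Finset.mem_product, Finset.mem_univ, and_true] at hq
      by_cases h : ∃ u ∈ τ, p u = p v
      · obtain ⟨u, hu, huv⟩ := h
        simp only [swp_eq (injOn_of_rainbow hq.1.1) hu huv]
        rw [Finset.insert_erase (Finset.mem_insert_of_mem hu)]
        exact add_self2 _
      · simp only [swp_of_not (q := (τ, v)) h]
        exact add_self2 _
    · rintro ⟨τ, v⟩ hq hne hfix
      simp only [Finset.mem_filter, Finset.mem_product, Finset.mem_univ, and_true] at hq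
      have h3 := (hc _ hne).1.2 v (Finset.mem_insert_self _ _)
      have h4 : p v ∈ S.erase i := Finset.mem_erase.2 ⟨hq.2, h3⟩
      rw [← (mem_rainbow.1 hq.1.1).1, Finset.mem_image] at h4
      obtain ⟨u, hu, hu'⟩ := h4
      rw [swp_eq (injOn_of_rainbow hq.1.1) hu hu'] at hfix
      have h5 : u = v := (Prod.ext_iff.1 hfix).2
      exact hq.1.2 (h5 ▸ hu)
    · rintro ⟨τ, v⟩ hq
      simp only [Finset.mem_filter, Finset.mem_product, Finset.mem_univ, and_true] at hq
      by_cases h : ∃ u ∈ τ, p u = p v
      · obtain ⟨u, hu, huv⟩ := h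
        simp only [swp_eq (injOn_of_rainbow hq.1.1) hu huv]
        simp only [Finset.mem_filter, Finset.mem_product, Finset.mem_univ, and_true]
        refine ⟨⟨rainbow_swap hq.1.1 hu hq.1.2 huv, ?_⟩, ?_⟩
        · simp
        · rw [huv]
          exact hq.2
      · simp only [swp_of_not (q := (τ, v)) h]
        simp only [Finset.mem_filter, Finset.mem_product, Finset.mem_univ, and_true]
        exact hq
    · rintro ⟨τ, v⟩ hq
      simp only [Finset.mem_filter, Finset.mem_product, Finset.mem_univ, and_true] at hq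
      by_cases h : ∃ u ∈ τ, p u = p v
      · obtain ⟨u, hu, huv⟩ := h
        have huq : v ≠ u := fun he => hq.1.2 (he ▸ hu)
        simp only [swp_eq (injOn_of_rainbow hq.1.1) hu huv]
        rw [swp_eq (injOn_of_rainbow (rainbow_swap hq.1.1 hu hq.1.2 huv))
          (Finset.mem_erase.2 ⟨huq, Finset.mem_insert_self _ _⟩) huv.symm,
          Finset.insert_erase (Finset.mem_insert_of_mem hu), Finset.erase_insert hq.1.2]
      · simp only [swp_of_not (q := (τ, v)) h]
  rw [h2, add_zero]
  refine Finset.sum_bij (fun q _ => insert q.2 q.1) ?_ ?_ ?_ ?_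
  · intro q hq
    simp only [Finset.mem_filter, Finset.mem_product, Finset.mem_univ, and_true] at hq
    exact rainbow_insert hi hq.1.1 hq.2
  · intro q hq q' hq' h
    simp only [Finset.mem_filter, Finset.mem_product, Finset.mem_univ, and_true] at hq hq'
    have h3 : q.2 = q'.2 := by
      have h4 : q.2 ∈ insert q'.2 q'.1 := h ▸ Finset.mem_insert_self _ _
      rcases Finset.mem_insert.1 h4 with h4 | h4
      · exact h4
      · have h5 := mem_of_rainbow hq'.1.1 h4
        rw [hq.2] at h5
        exact absurd h5 (by simp)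
    refine Prod.ext ?_ h3
    rw [← Finset.erase_insert hq.1.2, ← Finset.erase_insert hq'.1.2]
    rw [← h3] at h ⊢
    rw [h]
  · intro σ hσ
    have h3 : i ∈ σ.image p := by
      rw [(mem_rainbow.1 hσ).1]
      exact hi
    obtain ⟨v, hv, hvi⟩ := Finset.mem_image.1 h3
    refine ⟨(σ.erase v, v), ?_, Finset.insert_erase hv⟩
    simp only [Finset.mem_filter, Finset.mem_product, Finset.mem_univ, and_true]
    refine ⟨⟨?_, by simp⟩, hvi⟩
    rw [← hvi]
    exact rainbow_erase hσ hv
  · intro q _
    rfl

/-- The topological Hall theorem. -/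
theorem topHall (p : V → I) (X : Set (Finset V)) (h0 : ∅ ∈ X)
    (hX : ∀ S : Finset I, Conn (Over p X S) S.card) :
    ∃ σ ∈ X, Set.InjOn p σ ∧ σ.image p = univ := by
  classical
  obtain ⟨c, hc0, hc⟩ := exists_family p X h0 hX (Fintype.card I)
  have hle : ∀ S : Finset I, S.card ≤ Fintype.card I := fun S => Finset.card_le_univ S
  have key : ∀ n, ∀ S : Finset I, S.card = n → ∑ σ ∈ Rainbow p S, c S σ = 1 := by
    intro n
    induction n with
    | zero =>
      intro S hS
      have hS' : S = ∅ := Finset.card_eq_zero.1 hS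
      subst hS'
      rw [hc0]
      have : Rainbow p (∅ : Finset I) = {∅} := by
        ext σ
        rw [mem_rainbow]
        simp
      rw [this]
      simp
    | succ n ih =>
      intro S hS
      obtain ⟨i, hi⟩ : S.Nonempty := Finset.card_pos.1 (by omega)
      rw [← sperner p X (hc S (hle S)).1 hi, (hc S (hle S)).2]
      have hcard : (S.erase i).card = n := by
        rw [Finset.card_erase_of_mem hi, hS]
        rfl
      rw [← ih (S.erase i) hcard]
      refine Finset.sum_congr rfl fun τ hτ => ?_
      rw [Finset.sum_apply]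
      refine Finset.sum_eq_single_of_mem i hi fun j hj hji => ?_
      by_contra hne
      have h1 := ((hc (S.erase j) (hle _)).1 τ hne).1.2
      have h2 : j ∈ τ.image p := by
        rw [(mem_rainbow.1 hτ).1]
        exact Finset.mem_erase.2 ⟨hji, hj⟩
      obtain ⟨v, hv, hvj⟩ := Finset.mem_image.1 h2
      have h3 := h1 v hv
      rw [hvj] at h3
      exact absurd h3 (by simp)
  have h1 := key _ univ rfl
  obtain ⟨σ, hσ, hne⟩ := Finset.exists_ne_zero_of_sum_ne_zero
    (show ∑ σ ∈ Rainbow p univ, c univ σ ≠ 0 by rw [h1]; decide)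
  exact ⟨σ, ((hc univ (hle _)).1 σ hne).1.1, injOn_of_rainbow hσ, (mem_rainbow.1 hσ).1⟩

end Hall

end Pool.Agent.Helper48.TH
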