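import Pool.Agent.Helper48.TH.Chain

/-!
# Independence complexes: cones, Meshulam's edge deletion, elimination orders
-/

namespace Pool.Agent.Helper48.TH

open Finset

variable {V : Type} [Fintype V] [DecidableEq V]

/-- The independent sets of the relation `E` inside `W`. -/
def Ind (E : V → V → Prop) (W : Set V) : Set (Finset V) :=
  {σ | (∀ x ∈ σ, x ∈ W) ∧ ∀ x ∈ σ, ∀ y ∈ σ, ¬ E x y}

theorem Conn.mono {X : Set (Finset V)} {m m' : ℕ} (h : Conn X m) (hm : m' ≤ m) : Conn X m' :=
  fun n hn => h n (lt_of_lt_of_le hn hm)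

/-- A family of independent sets with an isolated vertex is a cone. -/
theorem conn_cone {E : V → V → Prop} {W : Set V} {x : V} (hx : x ∈ W) (hxx : ¬ E x x)
    (h1 : ∀ y ∈ W, ¬ E x y) (h2 : ∀ y ∈ W, ¬ E y x) (m : ℕ) : Conn (Ind E W) m := by
  intro n _ z hz hbd
  refine ⟨fun σ => if x ∈ σ then z (σ.erase x) else 0, ?_, ?_⟩
  · intro σ hσ
    by_cases hxσ : x ∈ σ
    · simp only [if_pos hxσ] at hσ
      obtain ⟨⟨h3, h4⟩, h5⟩ := hz _ hσ
      refine ⟨⟨fun y hy => ?_, fun y hy w hw => ?_⟩, ?_⟩
      · by_cases hyx : y = x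
        · rw [hyx]
          exact hx
        · exact h3 y (Finset.mem_erase.2 ⟨hyx, hy⟩)
      · by_cases hyx : y = x
        · subst hyx
          by_cases hwx : w = y
          · rw [hwx]
            exact hxx
          · exact h1 w (h3 w (Finset.mem_erase.2 ⟨hwx, hw⟩))
        · by_cases hwx : w = x
          · subst hwx
            exact h2 y (h3 y (Finset.mem_erase.2 ⟨hyx, hy⟩))
          · exact h4 y (Finset.mem_erase.2 ⟨hyx, hy⟩) w (Finset.mem_erase.2 ⟨hwx, hw⟩)
      · rw [Finset.card_erase_of_mem hxσ] at h5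
        have : 0 < σ.card := Finset.card_pos.2 ⟨x, hxσ⟩
        omega
    · simp [hxσ] at hσ
  · funext τ
    by_cases hxτ : x ∈ τ
    · have h3 : bd (fun σ => if x ∈ σ then z (σ.erase x) else 0) τ =
          ∑ v ∈ univ.filter (fun v => v ∉ τ), z (insert v (τ.erase x)) := by
        rw [bd_apply]
        refine Finset.sum_congr rfl fun v hv => ?_
        rw [if_pos (Finset.mem_insert_of_mem hxτ)]
        have hvx : v ≠ x := fun h => (Finset.mem_filter.1 hv).2 (h ▸ hxτ)
        rw [Finset.erase_insert_of_ne hvx]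
      have h4 : bd z (τ.erase x) = z τ +
          ∑ v ∈ univ.filter (fun v => v ∉ τ), z (insert v (τ.erase x)) := by
        rw [bd_apply]
        have h5 : (univ.filter fun v => v ∉ τ.erase x) = insert x (univ.filter fun v => v ∉ τ) := by
          ext v
          simp only [Finset.mem_filter, Finset.mem_univ, true_and, Finset.mem_erase, not_and,
            Finset.mem_insert]
          constructor
          · intro h
            by_cases hv : v = x
            · exact Or.inl hv
            · exact Or.inr (h hv)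
          · rintro (rfl | h) h'
            · exact absurd rfl h'
            · exact h
        rw [h5, Finset.sum_insert (by simp [hxτ]), Finset.insert_erase hxτ]
      rw [h3]
      have h6 : bd z (τ.erase x) = 0 := by rw [hbd]; rfl
      rw [h4] at h6
      exact (eq_of_add2 h6).symm
    · rw [bd_apply, Finset.sum_eq_single_of_mem x (by simp [hxτ])]
      · simp [hxτ]
      · intro v hv hvx
        rw [if_neg]
        rw [Finset.mem_insert, not_or]
        exact ⟨fun h => hvx h.symm, hxτ⟩

/-- Meshulam's edge deletion and explosion. -/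
theorem conn_edge {E E' : V → V → Prop} {W : Set V} {x y : V} {m : ℕ}
    (hsymm : ∀ u v, E u v → E v u) (hirr : ∀ u, ¬ E u u) (hx : x ∈ W) (hy : y ∈ W) (hxy : E x y)
    (hE' : ∀ u v, E' u v ↔ E u v ∧ ¬ (u = x ∧ v = y) ∧ ¬ (u = y ∧ v = x))
    (h1 : Conn (Ind E' W) (m + 1)) (h2 : Conn (Ind E {w | w ∈ W ∧ ¬ E x w ∧ ¬ E y w}) m) :
    Conn (Ind E W) (m + 1) := by
  have hne : x ≠ y := fun h => hirr x (by rw [h] at hxy ⊢; exact hxy)
  have hEE' : ∀ σ, σ ∈ Ind E W → σ ∈ Ind E' W := fun σ hσ =>
    ⟨hσ.1, fun u hu v hv h => hσ.2 u hu v hv ((hE' u v).1 h).1⟩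
  have hE'E : ∀ σ, σ ∈ Ind E' W → ¬ (x ∈ σ ∧ y ∈ σ) → σ ∈ Ind E W := by
    intro σ hσ hnot
    refine ⟨hσ.1, fun u hu v hv h => hσ.2 u hu v hv ((hE' u v).2 ⟨h, ?_, ?_⟩)⟩
    · rintro ⟨rfl, rfl⟩
      exact hnot ⟨hu, hv⟩
    · rintro ⟨rfl, rfl⟩
      exact hnot ⟨hv, hu⟩
  intro n hn z hz hbd
  have hz' : Supp (Ind E' W) n z := fun σ hσ => ⟨hEE' σ (hz σ hσ).1, (hz σ hσ).2⟩
  obtain ⟨c, hc, hcz⟩ := h1 n hn z hz' hbd
  -- the link part
  set w : Ch V := fun τ => if x ∉ τ ∧ y ∉ τ then c (insert x (insert y τ)) else 0 with hw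
  rcases Nat.eq_zero_or_pos n with rfl | hpos
  · refine ⟨c, fun σ hσ => ?_, hcz⟩
    have h3 := hc σ hσ
    refine ⟨hE'E σ h3.1 ?_, h3.2⟩
    rintro ⟨h4, h5⟩
    have h6 : ({x, y} : Finset V) ⊆ σ := by
      intro v hv
      rcases Finset.mem_insert.1 hv with rfl | hv
      · exact h4
      · rw [Finset.mem_singleton.1 hv]
        exact h5
    have h7 := Finset.card_le_card h6
    rw [Finset.card_pair hne, h3.2] at h7
    omega
  obtain ⟨k, rfl⟩ : ∃ k, n = k + 1 := ⟨n - 1, by omega⟩
  have hwsupp : Supp (Ind E {w | w ∈ W ∧ ¬ E x w ∧ ¬ E y w}) k w := by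
    intro τ hτ
    by_cases h : x ∉ τ ∧ y ∉ τ
    · simp only [hw, if_pos h] at hτ
      obtain ⟨⟨h3, h4⟩, h5⟩ := hc _ hτ
      have hmem : ∀ u ∈ τ, u ∈ insert x (insert y τ) := fun u hu =>
        Finset.mem_insert_of_mem (Finset.mem_insert_of_mem hu)
      have hux : ∀ u ∈ τ, u ≠ x := fun u hu he => h.1 (he ▸ hu)
      have huy : ∀ u ∈ τ, u ≠ y := fun u hu he => h.2 (he ▸ hu)
      refine ⟨⟨fun u hu => ⟨h3 u (hmem u hu), fun hE => ?_, fun hE => ?_⟩, ?_⟩, ?_⟩
      · exact h4 x (by simp) u (hmem u hu) ((hE' x u).2 ⟨hE, fun h => huy u hu h.2,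
          fun h => hne h.1⟩)
      · exact h4 y (by simp) u (hmem u hu) ((hE' y u).2 ⟨hE, fun h => hne h.1.symm,
          fun h => hux u hu h.2⟩)
      · intro u hu v hv hE
        exact h4 u (hmem u hu) v (hmem v hv) ((hE' u v).2 ⟨hE, fun h => hux u hu h.1,
          fun h => huy u hu h.1⟩)
      · rw [Finset.card_insert_of_notMem, Finset.card_insert_of_notMem h.2] at h5
        · omega
        · rw [Finset.mem_insert, not_or]
          exact ⟨hne, h.1⟩
    · simp [hw, h] at hτ
  have hwbd : bd w = 0 := by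
    funext τ
    rw [Pi.zero_apply, bd_apply]
    by_cases h : x ∉ τ ∧ y ∉ τ
    · have hnot : insert x (insert y τ) ∉ Ind E W := fun hI =>
        hI.2 x (by simp) y (by simp) hxy
      have h3 : bd c (insert x (insert y τ)) = 0 := by
        rw [hcz]
        by_contra h4
        exact hnot (hz _ h4).1
      rw [bd_apply] at h3
      have h4 : (univ.filter fun v => v ∉ τ) =
          insert x (insert y (univ.filter fun v => v ∉ insert x (insert y τ))) := by
        ext v
        simp only [Finset.mem_filter, Finset.mem_univ, true_and, Finset.mem_insert, not_or]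
        constructor
        · intro hv
          by_cases hvx : v = x
          · exact Or.inl hvx
          · by_cases hvy : v = y
            · exact Or.inr (Or.inl hvy)
            · exact Or.inr (Or.inr ⟨hvx, hvy, hv⟩)
        · rintro (rfl | rfl | h')
          · exact h.1
          · exact h.2
          · exact h'.2.2
      rw [h4, Finset.sum_insert, Finset.sum_insert]
      · have h5 : w (insert x τ) = 0 := by
          simp [hw]
        have h6 : w (insert y τ) = 0 := by
          simp [hw]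
        rw [h5, h6, zero_add, zero_add, ← h3]
        refine Finset.sum_congr rfl fun v hv => ?_
        simp only [Finset.mem_filter, Finset.mem_univ, true_and, Finset.mem_insert, not_or] at hv
        have h7 : x ∉ insert v τ ∧ y ∉ insert v τ := by
          simp only [Finset.mem_insert, not_or]
          exact ⟨⟨fun h => hv.1 h.symm, h.1⟩, ⟨fun h => hv.2.1 h.symm, h.2⟩⟩
        simp only [hw, if_pos h7]
        congr 1
        ext u
        simp only [Finset.mem_insert]
        tauto
      · simp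
      · simp [hne]
    · refine Finset.sum_eq_zero fun v _ => ?_
      have h7 : ¬ (x ∉ insert v τ ∧ y ∉ insert v τ) := by
        intro h8
        apply h
        exact ⟨fun h9 => h8.1 (Finset.mem_insert_of_mem h9),
          fun h9 => h8.2 (Finset.mem_insert_of_mem h9)⟩
      simp only [hw, if_neg h7]
  obtain ⟨u, hu, hub⟩ := h2 k (by omega) w hwsupp hwbd
  -- the correction
  set e : Ch V := fun σ => if x ∈ σ ∧ y ∈ σ then u ((σ.erase x).erase y) else 0 with he
  have hux : ∀ σ, x ∈ σ → u σ = 0 := by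
    intro σ hxσ
    by_contra h
    exact ((hu σ h).1.1 x hxσ).2.2 (hsymm _ _ hxy)
  have huy : ∀ σ, y ∈ σ → u σ = 0 := by
    intro σ hyσ
    by_contra h
    exact ((hu σ h).1.1 y hyσ).2.1 hxy
  have hbe1 : ∀ σ, x ∈ σ → y ∈ σ → bd e σ = c σ := by
    intro σ h3 h4
    have h5 : bd e σ = ∑ v ∈ univ.filter (fun v => v ∉ σ), u (insert v ((σ.erase x).erase y)) := by
      rw [bd_apply]
      refine Finset.sum_congr rfl fun v hv => ?_
      have hv' := (Finset.mem_filter.1 hv).2
      have hvx : v ≠ x := fun h => hv' (h ▸ h3)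
      have hvy : v ≠ y := fun h => hv' (h ▸ h4)
      simp only [he]
      rw [if_pos ⟨Finset.mem_insert_of_mem h3, Finset.mem_insert_of_mem h4⟩,
        Finset.erase_insert_of_ne hvx, Finset.erase_insert_of_ne hvy]
    have h6 : bd u ((σ.erase x).erase y) =
        ∑ v ∈ univ.filter (fun v => v ∉ σ), u (insert v ((σ.erase x).erase y)) := by
      rw [bd_apply]
      have h7 : (univ.filter fun v => v ∉ (σ.erase x).erase y) =
          insert x (insert y (univ.filter fun v => v ∉ σ)) := by
        ext v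
        simp only [Finset.mem_filter, Finset.mem_univ, true_and, Finset.mem_erase, not_and,
          Finset.mem_insert]
        constructor
        · intro hv
          by_cases hvx : v = x
          · exact Or.inl hvx
          · by_cases hvy : v = y
            · exact Or.inr (Or.inl hvy)
            · exact Or.inr (Or.inr (hv hvy hvx))
        · rintro (rfl | rfl | h') h8 h9
          · exact absurd rfl h9
          · exact absurd rfl h8
          · exact h'
      rw [h7, Finset.sum_insert, Finset.sum_insert, hux _ (by simp), huy _ (by simp), zero_add,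
        zero_add]
      · simp [h4]
      · simp [hne, h3]
    rw [h5, ← h6, hub]
    have h8 : x ∉ (σ.erase x).erase y ∧ y ∉ (σ.erase x).erase y := by simp
    simp only [hw, if_pos h8]
    congr 1
    rw [Finset.insert_erase (Finset.mem_erase.2 ⟨hne.symm, h4⟩), Finset.insert_erase h3]
  have hbe2 : ∀ σ, x ∈ σ → y ∉ σ → bd e σ = u (σ.erase x) := by
    intro σ h3 h4
    rw [bd_apply, Finset.sum_eq_single_of_mem y (by simp [h4])]
    · simp only [he]
      rw [if_pos ⟨Finset.mem_insert_of_mem h3, Finset.mem_insert_self _ _⟩,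
        Finset.erase_right_comm, Finset.erase_insert h4]
    · intro v hv hvy
      simp only [he]
      rw [if_neg]
      rintro ⟨_, h5⟩
      rcases Finset.mem_insert.1 h5 with h5 | h5
      · exact hvy h5.symm
      · exact h4 h5
  have hbe3 : ∀ σ, x ∉ σ → y ∈ σ → bd e σ = u (σ.erase y) := by
    intro σ h3 h4
    rw [bd_apply, Finset.sum_eq_single_of_mem x (by simp [h3])]
    · simp only [he]
      rw [if_pos ⟨Finset.mem_insert_self _ _, Finset.mem_insert_of_mem h4⟩,
        Finset.erase_insert h3]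
    · intro v hv hvx
      simp only [he]
      rw [if_neg]
      rintro ⟨h5, _⟩
      rcases Finset.mem_insert.1 h5 with h5 | h5
      · exact hvx h5.symm
      · exact h3 h5
  have hbe4 : ∀ σ, x ∉ σ → y ∉ σ → bd e σ = 0 := by
    intro σ h3 h4
    rw [bd_apply]
    refine Finset.sum_eq_zero fun v _ => ?_
    simp only [he]
    rw [if_neg]
    rintro ⟨h5, h6⟩
    rcases Finset.mem_insert.1 h5 with h5 | h5
    · rcases Finset.mem_insert.1 h6 with h6 | h6
      · exact hne (h5.trans h6.symm)
      · exact h4 h6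
    · exact h3 h5
  refine ⟨c + bd e, ?_, ?_⟩
  · intro σ hσ
    rw [Pi.add_apply] at hσ
    by_cases h3 : x ∈ σ
    · by_cases h4 : y ∈ σ
      · rw [hbe1 σ h3 h4, add_self2] at hσ
        exact absurd rfl hσ
      · by_cases h5 : c σ = 0
        · rw [h5, zero_add, hbe2 σ h3 h4] at hσ
          obtain ⟨⟨h6, h7⟩, h8⟩ := hu _ hσ
          refine ⟨⟨fun v hv => ?_, fun v hv v' hv' hE => ?_⟩, ?_⟩
          · by_cases hvx : v = x
            · rw [hvx]
              exact hx
            · exact (h6 v (Finset.mem_erase.2 ⟨hvx, hv⟩)).1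
          · by_cases hvx : v = x
            · by_cases hvx' : v' = x
              · rw [hvx, hvx'] at hE
                exact hirr x hE
              · rw [hvx] at hE
                exact (h6 v' (Finset.mem_erase.2 ⟨hvx', hv'⟩)).2.1 hE
            · by_cases hvx' : v' = x
              · rw [hvx'] at hE
                exact (h6 v (Finset.mem_erase.2 ⟨hvx, hv⟩)).2.1 (hsymm _ _ hE)
              · exact h7 v (Finset.mem_erase.2 ⟨hvx, hv⟩) v' (Finset.mem_erase.2 ⟨hvx', hv'⟩) hE
          · rw [Finset.card_erase_of_mem h3] at h8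
            have : 0 < σ.card := Finset.card_pos.2 ⟨x, h3⟩
            omega
        · exact ⟨hE'E σ (hc σ h5).1 fun h => h4 h.2, (hc σ h5).2⟩
    · by_cases h4 : y ∈ σ
      · by_cases h5 : c σ = 0
        · rw [h5, zero_add, hbe3 σ h3 h4] at hσ
          obtain ⟨⟨h6, h7⟩, h8⟩ := hu _ hσ
          refine ⟨⟨fun v hv => ?_, fun v hv v' hv' hE => ?_⟩, ?_⟩
          · by_cases hvx : v = y
            · rw [hvx]
              exact hy
            · exact (h6 v (Finset.mem_erase.2 ⟨hvx, hv⟩)).1
          · by_cases hvx : v = y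
            · by_cases hvx' : v' = y
              · rw [hvx, hvx'] at hE
                exact hirr y hE
              · rw [hvx] at hE
                exact (h6 v' (Finset.mem_erase.2 ⟨hvx', hv'⟩)).2.2 hE
            · by_cases hvx' : v' = y
              · rw [hvx'] at hE
                exact (h6 v (Finset.mem_erase.2 ⟨hvx, hv⟩)).2.2 (hsymm _ _ hE)
              · exact h7 v (Finset.mem_erase.2 ⟨hvx, hv⟩) v' (Finset.mem_erase.2 ⟨hvx', hv'⟩) hE
          · rw [Finset.card_erase_of_mem h4] at h8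
            have : 0 < σ.card := Finset.card_pos.2 ⟨y, h4⟩
            omega
        · exact ⟨hE'E σ (hc σ h5).1 fun h => h3 h.1, (hc σ h5).2⟩
      · rw [hbe4 σ h3 h4, add_zero] at hσ
        exact ⟨hE'E σ (hc σ hσ).1 fun h => h3 h.1, (hc σ hσ).2⟩
  · rw [bd_add, bd_bd, add_zero, hcz]

/-- Elimination of a vertex along an order of its neighbours. -/
theorem conn_elim {E : V → V → Prop} {W : Set V} {x : V} {m : ℕ}
    (hsymm : ∀ u v, E u v → E v u) (hirr : ∀ u, ¬ E u u) (hx : x ∈ W) (l : List V)
    (hl : ∀ y ∈ W, E x y ↔ y ∈ l) (hlW : ∀ y ∈ l, y ∈ W) (hnd : l.Nodup)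
    (h : ∀ y t, (y :: t) <:+ l → Conn (Ind E {w | w ∈ W ∧ w ∉ y :: t ∧ ¬ E y w}) m) :
    Conn (Ind E W) (m + 1) := by
  -- generalize over the deleted edges
  have key : ∀ (l' : List V) (D : Set V), (∀ y ∈ W, (E x y ∧ y ∉ D) ↔ y ∈ l') →
      (∀ y ∈ l', y ∈ W) → l'.Nodup →
      (∀ y t, (y :: t) <:+ l' → Conn (Ind E {w | w ∈ W ∧ w ∉ y :: t ∧ ¬ E y w}) m) →
      Conn (Ind (fun u v => E u v ∧ ¬ (u = x ∧ v ∈ D) ∧ ¬ (v = x ∧ u ∈ D)) W) (m + 1) := by
    intro l'
    induction l' with
    | nil =>
      intro D h1 _ _ _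
      apply conn_cone hx
      · exact fun h => hirr x h.1
      · rintro y hy ⟨h2, h3, _⟩
        have h4 := (h1 y hy).1 ⟨h2, fun hD => h3 ⟨rfl, hD⟩⟩
        simp at h4
      · rintro y hy ⟨h2, _, h3⟩
        have h4 := (h1 y hy).1 ⟨hsymm _ _ h2, fun hD => h3 ⟨rfl, hD⟩⟩
        simp at h4
    | cons y t ih =>
      intro D h1 h2 h3 h4
      have hyW : y ∈ W := h2 y (by simp)
      obtain ⟨hxy, hyD⟩ := (h1 y hyW).2 (by simp)
      have hne : x ≠ y := fun h => hirr x (by rw [← h] at hxy; exact hxy)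
      have hyt : y ∉ t := (List.nodup_cons.1 h3).1
      refine conn_edge (E' := fun u v => E u v ∧ ¬ (u = x ∧ v ∈ insert y D) ∧
        ¬ (v = x ∧ u ∈ insert y D)) ?_ (fun u hu => hirr u hu.1) hx hyW
        ⟨hxy, fun h => hyD h.2, fun h => hne h.1.symm⟩ ?_ ?_ ?_
      · rintro u v ⟨h5, h6, h7⟩
        exact ⟨hsymm _ _ h5, h7, h6⟩
      · intro u v
        constructor
        · rintro ⟨h5, h6, h7⟩
          refine ⟨⟨h5, fun h => h6 ⟨h.1, Set.mem_insert_of_mem _ h.2⟩,
            fun h => h7 ⟨h.1, Set.mem_insert_of_mem _ h.2⟩⟩, fun h => h6 ⟨h.1, ?_⟩,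
            fun h => h7 ⟨h.2, ?_⟩⟩
          · rw [h.2]
            exact Set.mem_insert _ _
          · rw [h.1]
            exact Set.mem_insert _ _
        · rintro ⟨⟨h5, h6, h7⟩, h8, h9⟩
          refine ⟨h5, ?_, ?_⟩
          · rintro ⟨h10, h11 | h11⟩
            · exact h8 ⟨h10, h11⟩
            · exact h6 ⟨h10, h11⟩
          · rintro ⟨h10, h11 | h11⟩
            · exact h9 ⟨h11, h10⟩
            · exact h7 ⟨h10, h11⟩
      · apply ih (insert y D)
        · intro v hv
          constructor
          · rintro ⟨h5, h6⟩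
            have h7 := (h1 v hv).1 ⟨h5, fun h => h6 (Set.mem_insert_of_mem _ h)⟩
            rcases List.mem_cons.1 h7 with h7 | h7
            · exact absurd (h7 ▸ Set.mem_insert y D) h6
            · exact h7
          · intro h5
            have h6 := (h1 v hv).2 (List.mem_cons_of_mem _ h5)
            refine ⟨h6.1, ?_⟩
            rintro (h7 | h7)
            · exact hyt (h7 ▸ h5)
            · exact h6.2 h7
        · exact fun v hv => h2 v (List.mem_cons_of_mem _ hv)
        · exact (List.nodup_cons.1 h3).2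
        · intro v s hs
          exact h4 v s (hs.trans (List.suffix_cons y t))
      · have h5 := h4 y t (List.suffix_refl _)
        have hset : {w | w ∈ W ∧ ¬ (E x w ∧ ¬ (x = x ∧ w ∈ D) ∧ ¬ (w = x ∧ x ∈ D)) ∧
            ¬ (E y w ∧ ¬ (y = x ∧ w ∈ D) ∧ ¬ (w = x ∧ y ∈ D))} =
            {w | w ∈ W ∧ w ∉ y :: t ∧ ¬ E y w} := by
          ext w
          simp only [Set.mem_ofPred_eq]
          constructor
          · rintro ⟨h6, h7, h8⟩
            refine ⟨h6, fun h9 => h7 ?_, fun h9 => h8 ?_⟩
            · have h10 := (h1 w h6).2 h9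
              exact ⟨h10.1, fun h => h10.2 h.2, fun h => hirr x (by
                have h12 := h10.1
                rw [h.1] at h12
                exact h12)⟩
            · exact ⟨h9, fun h => hne h.1.symm, fun h => hyD h.2⟩
          · rintro ⟨h6, h7, h8⟩
            refine ⟨h6, fun h9 => h7 ?_, fun h9 => h8 h9.1⟩
            exact (h1 w h6).1 ⟨h9.1, fun h => h9.2.1 ⟨trivial, h⟩⟩
        have hInd : Ind (fun u v => E u v ∧ ¬ (u = x ∧ v ∈ D) ∧ ¬ (v = x ∧ u ∈ D))
            {w | w ∈ W ∧ ¬ (E x w ∧ ¬ (x = x ∧ w ∈ D) ∧ ¬ (w = x ∧ x ∈ D)) ∧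
              ¬ (E y w ∧ ¬ (y = x ∧ w ∈ D) ∧ ¬ (w = x ∧ y ∈ D))} =
            Ind E {w | w ∈ W ∧ w ∉ y :: t ∧ ¬ E y w} := by
          rw [hset]
          ext σ
          constructor
          · rintro ⟨h6, h7⟩
            refine ⟨h6, fun u hu v hv hE => h7 u hu v hv ⟨hE, ?_, ?_⟩⟩
            · rintro ⟨h8, _⟩
              have h9 := (h6 u hu).2.2
              rw [h8] at h9
              exact h9 (hsymm _ _ hxy)
            · rintro ⟨h8, _⟩
              have h9 := (h6 v hv).2.2
              rw [h8] at h9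
              exact h9 (hsymm _ _ hxy)
          · rintro ⟨h6, h7⟩
            exact ⟨h6, fun u hu v hv hE => h7 u hu v hv hE.1⟩
        rw [hInd]
        exact h5
  have h1 := key l ∅ (fun y hy => by simpa using hl y hy) hlW hnd h
  have h2 : Ind (fun u v => E u v ∧ ¬ (u = x ∧ v ∈ (∅ : Set V)) ∧ ¬ (v = x ∧ u ∈ (∅ : Set V))) W
      = Ind E W := by
    ext σ
    simp [Ind]
  rwa [h2] at h1

/-- Weighted elimination: if every nonempty subset of `W₀` contains a vertex whose neighbours
can be ordered so that each explosion has weight at most one, then the independence complex of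
`W₀` is connected up to its weight. -/
def Elim (E : V → V → Prop) (w : V → ℚ) (W : Finset V) : Prop :=
  ∃ x ∈ W, ∃ l : List V, l.Nodup ∧ (∀ y ∈ l, y ∈ W) ∧ (∀ y ∈ W, E x y ↔ y ∈ l) ∧
    ∀ y t, (y :: t) <:+ l → ∀ T : Finset V, T ⊆ W → (∀ v ∈ T, v ∈ y :: t ∨ E y v) →
      ∑ v ∈ T, w v ≤ 1

theorem conn_weight {E : V → V → Prop} {w : V → ℚ} (hsymm : ∀ u v, E u v → E v u)
    (hirr : ∀ u, ¬ E u u) (hw : ∀ v, 0 ≤ w v) (W₀ : Finset V)
    (h : ∀ W ⊆ W₀, W.Nonempty → Elim E w W) :
    ∀ m : ℕ, (m : ℚ) < ∑ v ∈ W₀, w v + 1 → Conn (Ind E (W₀ : Set V)) m := by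
  classical
  have key : ∀ n : ℕ, ∀ W ⊆ W₀, W.card = n → ∀ m : ℕ, (m : ℚ) < ∑ v ∈ W, w v + 1 →
      Conn (Ind E (W : Set V)) m := by
    intro n
    induction n using Nat.strong_induction_on with
    | _ n ih =>
      intro W hW hn m hm
      rcases m with _ | m
      · intro n hn
        omega
      rcases W.eq_empty_or_nonempty with rfl | hne
      · simp only [Finset.sum_empty, zero_add, Nat.cast_add, Nat.cast_one] at hm
        have : (0 : ℚ) ≤ m := Nat.cast_nonneg m
        linarith
      obtain ⟨x, hx, l, hnd, hlW, hl, hT⟩ := h W hW hne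
      refine conn_elim hsymm hirr (Finset.mem_coe.2 hx) l (fun y hy => hl y hy) hlW hnd ?_
      intro y t hyt
      set T := W.filter fun v => v ∈ y :: t ∨ E y v with hTdef
      have hTle := hT y t hyt T (Finset.filter_subset _ _) fun v hv => (Finset.mem_filter.1 hv).2
      set W' := W.filter fun v => ¬ (v ∈ y :: t ∨ E y v) with hW'
      have hyl : y ∈ l := hyt.subset (by simp)
      have hxT : x ∉ W' := by
        intro hx'
        have h1 := (Finset.mem_filter.1 hx').2
        apply h1
        exact Or.inr (hsymm _ _ ((hl y (hlW y hyl)).2 hyl))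
      have hlt : W'.card < n := by
        rw [← hn]
        exact Finset.card_lt_card ⟨Finset.filter_subset _ _, fun hsub => hxT (hsub hx)⟩
      have hsum : ∑ v ∈ W, w v = ∑ v ∈ T, w v + ∑ v ∈ W', w v := by
        rw [hTdef, hW', Finset.sum_filter_add_sum_filter_not]
      have h1 := ih W'.card hlt W' ((Finset.filter_subset _ _).trans hW) rfl m (by
        push_cast at hm
        linarith)
      have h2 : {v | v ∈ (W : Set V) ∧ v ∉ y :: t ∧ ¬ E y v} = (W' : Set V) := by
        ext v
        simp only [Set.mem_ofPred_eq, Finset.mem_coe, hW', Finset.mem_filter, not_or]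
      rw [h2]
      exact h1
  exact fun m hm => key _ W₀ (Finset.Subset.refl _) rfl m hm

/-- Independent representatives from weights. -/
theorem exists_representatives {I : Type} [Fintype I] [DecidableEq I] (p : V → I)
    {E : V → V → Prop} {w : V → ℚ} (hsymm : ∀ u v, E u v → E v u)
    (hirr : ∀ u, ¬ E u u) (hw : ∀ v, 0 ≤ w v)
    (h : ∀ W : Finset V, W.Nonempty → Elim E w W)
    (hp : ∀ i, 1 ≤ ∑ v ∈ univ.filter (fun v => p v = i), w v) :
    ∃ c : I → V, (∀ i, p (c i) = i) ∧ ∀ i j, ¬ E (c i) (c j) := by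
  classical
  obtain ⟨σ, hσ, hinj, himg⟩ := topHall p (Ind E Set.univ) ⟨by simp, by simp⟩ (by
    intro S
    have h1 : Over p (Ind E Set.univ) S =
        Ind E ((univ.filter fun v => p v ∈ S : Finset V) : Set V) := by
      ext σ
      simp only [Over, Ind, Set.mem_ofPred_eq, Set.mem_univ, implies_true, true_and,
        Finset.coe_filter, Finset.mem_univ]
      tauto
    rw [h1]
    apply conn_weight hsymm hirr hw _ fun W _ hne => h W hne
    have h2 : ∑ v ∈ univ.filter (fun v => p v ∈ S), w v =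
        ∑ i ∈ S, ∑ v ∈ univ.filter (fun v => p v = i), w v := by
      have h3 : (univ.filter fun v => p v ∈ S) =
          S.biUnion fun i => univ.filter fun v => p v = i := by
        ext v
        simp
      rw [h3, Finset.sum_biUnion]
      intro i _ j _ hij
      rw [Function.onFun, Finset.disjoint_left]
      intro v hv hv'
      exact hij ((Finset.mem_filter.1 hv).2.symm.trans (Finset.mem_filter.1 hv').2)
    rw [h2]
    have h3 : (S.card : ℚ) ≤ ∑ i ∈ S, ∑ v ∈ univ.filter (fun v => p v = i), w v := by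
      rw [Finset.card_eq_sum_ones, Nat.cast_sum]
      exact Finset.sum_le_sum fun i _ => by simpa using hp i
    linarith)
  have h4 : ∀ i, ∃ v ∈ σ, p v = i := by
    intro i
    have : i ∈ σ.image p := by
      rw [himg]
      exact Finset.mem_univ i
    obtain ⟨v, hv, hvi⟩ := Finset.mem_image.1 this
    exact ⟨v, hv, hvi⟩
  choose c hc1 hc2 using h4
  exact ⟨c, hc2, fun i j => hσ.2 _ (hc1 i) _ (hc1 j)⟩

end Pool.Agent.Helper48.TH
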