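import Pool.Agent.Helper48.TH.Ind
import Pool.Agent.Helper48.HX.Lower

/-!
# List colourings: elimination orders in the colour classes
-/

namespace Pool.Agent.Helper48.TH

open Finset Pool.Agent.Helper48.HX

section Crit

variable {V C : Type} [Fintype V]

/-- Elimination criterion: weights `w v α` with sum at least one over each list; every nonempty
subset `W` of a colour class has a vertex `x` whose neighbours in `W` can be enumerated such that,
for each tail `y :: t` of the enumeration, the vertices of `W` in the tail or adjacent to `y` have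
total weight at most one. -/
theorem colourable_of_elim (G : SimpleGraph V) (L : V → Finset C) (w : V → C → ℚ)
    (hw : ∀ v α, 0 ≤ w v α)
    (h : ∀ α, ∀ W : Finset V, (∀ v ∈ W, α ∈ L v) → W.Nonempty → ∃ x ∈ W, ∃ l : List V,
      l.Nodup ∧ (∀ y, y ∈ l ↔ y ∈ W ∧ G.Adj x y) ∧
      ∀ y t, (y :: t) <:+ l → ∀ T ⊆ W, (∀ v ∈ T, v ∈ y :: t ∨ G.Adj y v) → ∑ v ∈ T, w v α ≤ 1)
    (hsum : ∀ v, (1 : ℚ) ≤ ∑ α ∈ L v, w v α) : ListColourable G L := by
  classical
  let E : (Σ v : V, L v) → (Σ v : V, L v) → Prop := fun s t => G.Adj s.1 t.1 ∧ s.2.1 = t.2.1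
  obtain ⟨m, hm1, hm2⟩ := exists_representatives (fun s : (Σ v : V, L v) => s.1)
    (E := E) (w := fun s => w s.1 s.2.1) (fun s t h => ⟨h.1.symm, h.2.symm⟩)
    (fun s h => G.loopless.irrefl _ h.1) (fun s => hw _ _) (by
      intro W hW
      obtain ⟨s0, hs0⟩ := hW
      set α : C := s0.2.1 with hα
      set Wα : Finset V := univ.filter fun v => ∃ h : α ∈ L v, (⟨v, ⟨α, h⟩⟩ : Σ v : V, L v) ∈ W
        with hWα
      have hWL : ∀ v ∈ Wα, α ∈ L v := fun v hv => (Finset.mem_filter.1 hv).2.choose
      have hs0' : s0.1 ∈ Wα := by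
        refine Finset.mem_filter.2 ⟨Finset.mem_univ _, s0.2.2, ?_⟩
        exact hs0
      obtain ⟨x, hx, l, hnd, hl, hT⟩ := h α Wα hWL ⟨s0.1, hs0'⟩
      set g : V → (Σ v : V, L v) := fun v => if hv : α ∈ L v then ⟨v, ⟨α, hv⟩⟩ else s0 with hg
      have hg1 : ∀ v ∈ Wα, g v ∈ W ∧ (g v).1 = v ∧ (g v).2.1 = α := by
        intro v hv
        obtain ⟨h1, h2⟩ := (Finset.mem_filter.1 hv).2
        have h3 : g v = ⟨v, ⟨α, h1⟩⟩ := dif_pos h1
        rw [h3]
        exact ⟨h2, rfl, rfl⟩
      have hg2 : ∀ s ∈ W, s.2.1 = α → s.1 ∈ Wα ∧ g s.1 = s := by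
        rintro ⟨v, β, hβ⟩ hs hsα
        simp only at hsα
        subst hsα
        refine ⟨Finset.mem_filter.2 ⟨Finset.mem_univ _, hβ, hs⟩, ?_⟩
        simp only [hg]
        rw [dif_pos hβ]
      have hlW : ∀ y ∈ l, y ∈ Wα := fun y hy => ((hl y).1 hy).1
      have hginj : ∀ y ∈ Wα, ∀ y' ∈ Wα, g y = g y' → y = y' := by
        intro y hy y' hy' h1
        rw [← (hg1 y hy).2.1, ← (hg1 y' hy').2.1, h1]
      refine ⟨g x, (hg1 x hx).1, l.map g, ?_, ?_, ?_, ?_⟩
      · exact (List.nodup_map_iff_inj_on hnd).2 fun y hy y' hy' h1 =>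
          hginj y (hlW y hy) y' (hlW y' hy') h1
      · intro s hs
        obtain ⟨y, hy, rfl⟩ := List.mem_map.1 hs
        exact (hg1 y (hlW y hy)).1
      · intro s hs
        constructor
        · rintro ⟨h1, h2⟩
          rw [(hg1 x hx).2.2] at h2
          rw [(hg1 x hx).2.1] at h1
          obtain ⟨h3, h4⟩ := hg2 s hs h2.symm
          exact List.mem_map.2 ⟨s.1, (hl _).2 ⟨h3, h1⟩, h4⟩
        · intro h1
          obtain ⟨y, hy, rfl⟩ := List.mem_map.1 h1
          obtain ⟨h2, h3⟩ := (hl y).1 hy
          refine ⟨?_, ?_⟩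
          · rw [(hg1 x hx).2.1, (hg1 y h2).2.1]
            exact h3
          · rw [(hg1 x hx).2.2, (hg1 y h2).2.2]
      · intro s t hst T hTW hTs
        obtain ⟨p, hp⟩ := hst
        obtain ⟨p', q', hpq, _, hq⟩ := List.map_eq_append_iff.1 hp.symm
        obtain ⟨y, t', rfl, rfl, rfl⟩ := List.map_eq_cons_iff.1 hq
        have hsuf : (y :: t') <:+ l := ⟨p', hpq.symm⟩
        have hyW : y ∈ Wα := hlW y (hsuf.subset (by simp))
        have hcol : ∀ s ∈ T, s.2.1 = α := by
          intro s hs
          rcases hTs s hs with h1 | h1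
          · rw [← List.map_cons, List.mem_map] at h1
            obtain ⟨u, hu, rfl⟩ := h1
            exact (hg1 u (hlW u (hsuf.subset hu))).2.2
          · rw [← h1.2, (hg1 y hyW).2.2]
        have h1 := hT y t' hsuf (T.image fun s => s.1) (by
          intro v hv
          obtain ⟨s, hs, rfl⟩ := Finset.mem_image.1 hv
          exact (hg2 s (hTW hs) (hcol s hs)).1) (by
          intro v hv
          obtain ⟨s, hs, rfl⟩ := Finset.mem_image.1 hv
          rcases hTs s hs with h1 | h1
          · left
            rw [← List.map_cons, List.mem_map] at h1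
            obtain ⟨u, hu, rfl⟩ := h1
            rw [(hg1 u (hlW u (hsuf.subset hu))).2.1]
            exact hu
          · right
            have h2 := h1.1
            rw [(hg1 y hyW).2.1] at h2
            exact h2)
        rw [Finset.sum_image] at h1
        · refine le_trans (le_of_eq ?_) h1
          refine Finset.sum_congr rfl fun s hs => ?_
          change w s.1 s.2.1 = w s.1 α
          rw [hcol s hs]
        · intro s hs s' hs' h2
          have h2' : s.1 = s'.1 := h2
          rw [← (hg2 s (hTW hs) (hcol s hs)).2, ← (hg2 s' (hTW hs') (hcol s' hs')).2, h2'])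
    (by
      intro v
      have h1 : (univ.filter fun s : (Σ v : V, L v) => s.1 = v) =
          ({v} : Finset V).sigma fun v => (Finset.univ : Finset (L v)) := by
        ext s
        simp
      rw [h1, Finset.sum_sigma, Finset.sum_singleton,
        Finset.sum_coe_sort (L v) (fun α => w v α)]
      exact hsum v)
  refine ⟨fun v => (m v).2.1, fun v => ?_, fun v w hvw h => ?_⟩
  · have h1 := (m v).2.2
    have h3 : L (m v).1 = L v := by rw [hm1 v]
    rw [← h3]
    exact h1
  · apply hm2 v w
    refine ⟨?_, h⟩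
    rw [hm1 v, hm1 w]
    exact hvw

end Crit

/-- The colour `α` is tame at `v`: in a set `K` containing `v` and closed under adjacency in the
colour class of `α`, every nonempty set `W` of vertices with the colour `α` has a vertex `x` whose
neighbours in `W` can be enumerated such that, for every tail `y :: t` of the enumeration, at most
`d + 1` vertices of `W` are in the tail or adjacent to `y`. -/
def Tame {V C : Type} (G : SimpleGraph V) (L : V → Finset C) (d : ℕ) (v : V) (α : C) : Prop :=
  ∃ K : Set V, v ∈ K ∧ (∀ u ∈ K, ∀ w, G.Adj u w → α ∈ L w → w ∈ K) ∧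
    ∀ W : Set V, W ⊆ K → (∀ u ∈ W, α ∈ L u) → W.Nonempty → ∃ x ∈ W, ∃ l : List V, l.Nodup ∧
      (∀ y, y ∈ l ↔ y ∈ W ∧ G.Adj x y) ∧
      ∀ y t, (y :: t) <:+ l → {u | u ∈ W ∧ (u ∈ y :: t ∨ G.Adj y u)}.ncard ≤ d + 1

/-- The colour `α` is rough at `v`: wide and not tame. -/
def Rough {V C : Type} (G : SimpleGraph V) (L : V → Finset C) (d : ℕ) (v : V) (α : C) : Prop :=
  ¬ Tame G L d v α ∧ Wide G L d v α

/-- In a set with independence number at most `r` some vertex has many neighbours. -/
theorem exists_many {V : Type} [DecidableEq V] {A : V → V → Prop}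
    (hsymm : ∀ u v, A u v → A v u) {N : Finset V}
    (hN : N.Nonempty) {r : ℕ}
    (h : ∀ S ⊆ N, (∀ u ∈ S, ∀ v ∈ S, u ≠ v → ¬ A u v) → S.card ≤ r) :
    ∃ y ∈ N, ∃ T ⊆ N, (∀ v ∈ T, v ≠ y ∧ A y v) ∧ N.card ≤ r * (T.card + 1) := by
  classical
  -- a maximal independent set
  obtain ⟨I, hI, hmax⟩ := Finset.exists_max_image
    (N.powerset.filter fun S => ∀ u ∈ S, ∀ v ∈ S, u ≠ v → ¬ A u v) Finset.card
    ⟨∅, by simp⟩
  simp only [Finset.mem_filter, Finset.mem_powerset] at hI hmax
  set f : V → Finset V := fun y => N.filter fun v => v ≠ y ∧ A y v with hf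
  have hcov : N ⊆ I.biUnion fun y => insert y (f y) := by
    intro v hv
    rw [Finset.mem_biUnion]
    by_cases hvI : v ∈ I
    · exact ⟨v, hvI, Finset.mem_insert_self _ _⟩
    · by_contra hcon
      push Not at hcon
      have h1 := hmax (insert v I) ⟨Finset.insert_subset hv hI.1, by
        intro a ha b hb hab hA
        rcases Finset.mem_insert.1 ha with ha' | ha'
        · rcases Finset.mem_insert.1 hb with hb' | hb'
          · exact hab (ha'.trans hb'.symm)
          · apply hcon b hb'
            rw [ha'] at hab hA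
            exact Finset.mem_insert_of_mem (Finset.mem_filter.2 ⟨hv, hab, hsymm _ _ hA⟩)
        · rcases Finset.mem_insert.1 hb with hb' | hb'
          · apply hcon a ha'
            rw [hb'] at hab hA
            exact Finset.mem_insert_of_mem (Finset.mem_filter.2 ⟨hv, hab.symm, hA⟩)
          · exact hI.2 a ha' b hb' hab hA⟩
      rw [Finset.card_insert_of_notMem hvI] at h1
      omega
  have hIne : I.Nonempty := by
    obtain ⟨v, hv⟩ := hN
    obtain ⟨y, hy, _⟩ := Finset.mem_biUnion.1 (hcov hv)
    exact ⟨y, hy⟩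
  obtain ⟨y, hy, hymax⟩ := Finset.exists_max_image I (fun y => (f y).card) hIne
  refine ⟨y, hI.1 hy, f y, Finset.filter_subset _ _, fun v hv => (Finset.mem_filter.1 hv).2, ?_⟩
  calc N.card ≤ (I.biUnion fun y => insert y (f y)).card := Finset.card_le_card hcov
    _ ≤ ∑ y ∈ I, (insert y (f y)).card := Finset.card_biUnion_le
    _ ≤ ∑ _y' ∈ I, ((f y).card + 1) := Finset.sum_le_sum fun y' hy' =>
        (Finset.card_insert_le _ _).trans (by have := hymax y' hy'; omega)
    _ = I.card * ((f y).card + 1) := by rw [Finset.sum_const, smul_eq_mul]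
    _ ≤ r * ((f y).card + 1) := Nat.mul_le_mul_right _ (h I hI.1 hI.2)

/-- The ordering. -/
theorem exists_order {V : Type} [DecidableEq V] {A : V → V → Prop}
    (hsymm : ∀ u v, A u v → A v u) {r : ℕ} :
    ∀ (n : ℕ) (N : Finset V), N.card = n →
    (∀ S ⊆ N, (∀ u ∈ S, ∀ v ∈ S, u ≠ v → ¬ A u v) → S.card ≤ r) →
    ∃ l : List V, l.Nodup ∧ (∀ y, y ∈ l ↔ y ∈ N) ∧ ∀ y t, (y :: t) <:+ l →
      ∃ T : Finset V, (∀ v ∈ T, v ∈ y :: t ∧ v ≠ y ∧ A y v) ∧
        (y :: t).length ≤ r * (T.card + 1) := by
  intro n
  induction n with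
  | zero =>
    intro N hN _
    refine ⟨[], List.nodup_nil, ?_, ?_⟩
    · intro y
      rw [Finset.card_eq_zero.1 hN]
      simp
    · intro y t h
      simp at h
  | succ n ih =>
    intro N hN h
    obtain ⟨y, hy, T, hT, hT1, hT2⟩ := exists_many hsymm (Finset.card_pos.1 (by omega)) h
    obtain ⟨l, h1, h2, h3⟩ := ih (N.erase y) (by rw [Finset.card_erase_of_mem hy]; omega)
      (fun S hS => h S (hS.trans (Finset.erase_subset _ _)))
    refine ⟨y :: l, ?_, ?_, ?_⟩
    · rw [List.nodup_cons]
      refine ⟨fun h4 => ?_, h1⟩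
      have := (h2 y).1 h4
      simp at this
    · intro v
      rw [List.mem_cons, h2]
      constructor
      · rintro (rfl | h4)
        · exact hy
        · exact Finset.mem_of_mem_erase h4
      · intro h4
        by_cases h5 : v = y
        · exact Or.inl h5
        · exact Or.inr (Finset.mem_erase.2 ⟨h5, h4⟩)
    · intro v t hvt
      rcases List.suffix_cons_iff.1 hvt with h4 | h4
      · obtain ⟨rfl, rfl⟩ := List.cons.inj h4
        refine ⟨T, fun u hu => ⟨?_, hT1 u hu⟩, ?_⟩
        · rw [List.mem_cons, h2]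
          right
          exact Finset.mem_erase.2 ⟨(hT1 u hu).1, hT hu⟩
        · have h5 : (v :: t).length = N.card := by
            rw [← List.toFinset_card_of_nodup (l := v :: t)]
            · congr 1
              ext u
              rw [List.mem_toFinset, List.mem_cons, h2]
              constructor
              · rintro (rfl | h5)
                · exact hy
                · exact Finset.mem_of_mem_erase h5
              · intro h5
                by_cases h6 : u = v
                · exact Or.inl h6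
                · exact Or.inr (Finset.mem_erase.2 ⟨h6, h5⟩)
            · rw [List.nodup_cons]
              refine ⟨fun h6 => ?_, h1⟩
              have := (h2 v).1 h6
              simp at this
          rw [h5]
          exact hT2
      · exact h3 v t h4

end Pool.Agent.Helper48.TH
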