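import Pool.Agent.Helper48.TH.Low

/-!
# Lists of size `d + 2` for few rough colours
-/

namespace Pool.Agent.Helper48.TH

open Finset Pool.Agent.Helper48.HX

/-- Lists of size at least `k` suffice whenever the maximum colour degree is at most `d`, every
vertex has at most `j` rough colours, and whenever `α` is rough at `v`, the neighbours of `v` with
the colour `α` contain no `r + 1` pairwise nonadjacent vertices. -/
def SufficesR (j r d k : ℕ) : Prop :=
  ∀ (V C : Type) [Fintype V] (G : SimpleGraph V) (L : V → Finset C),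
    ColourDegreeLE G L d → (∀ v, k ≤ (L v).card) →
    (∀ v, {α | α ∈ L v ∧ Rough G L d v α}.ncard ≤ j) →
    (∀ v, ∀ α ∈ L v, Rough G L d v α → ∀ S : Finset V, (∀ u ∈ S, G.Adj v u ∧ α ∈ L u) →
      (∀ u ∈ S, ∀ w ∈ S, ¬ G.Adj u w) → S.card ≤ r) → ListColourable G L

/-- The least sufficient size. -/
noncomputable def fR (j r d : ℕ) : ℕ := sInf {k | SufficesR j r d k}

/-- The upper bound. -/
theorem sufficesR_of_le {j r d k : ℕ} (hd : 1 ≤ d) (hr : 1 ≤ r)
    (h : ((2 * r - 1) * d + r) * (d + 1) + j * ((r - 1) * d) ≤ ((2 * r - 1) * d + r) * k) :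
    SufficesR j r d k := by
  classical
  intro V C _ G L hdeg hk hj hloc
  obtain ⟨s, rfl⟩ : ∃ s, r = s + 1 := ⟨r - 1, by omega⟩
  have hP : (2 * (s + 1) - 1) * d + (s + 1) = (2 * s + 1) * d + (s + 1) := by
    have : 2 * (s + 1) - 1 = 2 * s + 1 := by omega
    rw [this]
  rw [hP] at h
  simp only [Nat.add_sub_cancel] at h
  set P : ℕ := (2 * s + 1) * d + (s + 1) with hPdef
  have hPpos : 0 < P := by
    rw [hPdef]
    positivity
  have hPQ : (0 : ℚ) < P := by exact_mod_cast hPpos
  have hdQ : (0 : ℚ) < (d : ℚ) + 1 := by positivity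
  have hcmp : ((s + 1 : ℕ) : ℚ) / P ≤ 1 / ((d : ℚ) + 1) := by
    rw [div_le_div_iff₀ hPQ hdQ]
    have : (s + 1) * (d + 1) ≤ P := by
      rw [hPdef]
      nlinarith
    have h2 : (((s + 1) * (d + 1) : ℕ) : ℚ) ≤ P := by exact_mod_cast this
    push_cast at h2 ⊢
    linarith
  set w : V → C → ℚ := fun v α => if Rough G L d v α then ((s + 1 : ℕ) : ℚ) / P
    else 1 / ((d : ℚ) + 1) with hw
  have hw0 : ∀ v α, 0 ≤ w v α := by
    intro v α
    simp only [hw]
    split_ifs <;> positivity
  have hwle : ∀ v α, w v α ≤ 1 / ((d : ℚ) + 1) := by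
    intro v α
    simp only [hw]
    split_ifs
    · exact hcmp
    · exact le_rfl
  -- sets of at most `d + 1` vertices
  have hsmall : ∀ (α : C) (T : Finset V), T.card ≤ d + 1 → ∑ v ∈ T, w v α ≤ 1 := by
    intro α T hT
    calc ∑ v ∈ T, w v α ≤ ∑ v ∈ T, 1 / ((d : ℚ) + 1) := Finset.sum_le_sum fun v _ => hwle v α
      _ = T.card / ((d : ℚ) + 1) := by rw [Finset.sum_const, nsmul_eq_mul, mul_one_div]
      _ ≤ 1 := by
        rw [div_le_one hdQ]
        exact_mod_cast hT
  refine colourable_of_elim G L w hw0 ?_ ?_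
  · intro α W hWL hW
    by_cases htame : ∃ s ∈ W, Tame G L d s α
    · obtain ⟨s0, hs0, K, hs0K, hK, hKW⟩ := htame
      obtain ⟨x, ⟨hxW, hxK⟩, l, hnd, hl, hsuf⟩ := hKW {u | u ∈ W ∧ u ∈ K} (fun u hu => hu.2)
        (fun u hu => hWL u hu.1) ⟨s0, hs0, hs0K⟩
      refine ⟨x, hxW, l, hnd, fun y => ?_, fun y t hyt T hTW hT => ?_⟩
      · rw [hl]
        constructor
        · rintro ⟨h1, h2⟩
          exact ⟨h1.1, h2⟩
        · rintro ⟨h1, h2⟩
          exact ⟨⟨h1, hK x hxK y h2 (hWL y h1)⟩, h2⟩
      · apply hsmall
        refine le_trans ?_ (hsuf y t hyt)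
        rw [← Set.ncard_coe_finset]
        refine Set.ncard_le_ncard (fun v hv => ?_) (Set.toFinite _)
        have hvW := hTW hv
        have hyK : y ∈ K := ((hl y).1 (hyt.subset (by simp))).1.2
        rcases hT v hv with h1 | h1
        · exact ⟨((hl v).1 (hyt.subset h1)).1, Or.inl h1⟩
        · exact ⟨⟨hvW, hK y hyK v h1 (hWL v hvW)⟩, Or.inr h1⟩
    · push Not at htame
      obtain ⟨x, hx⟩ := hW
      set N : Finset V := W.filter fun y => G.Adj x y with hN
      have hNd : N.card ≤ d := by
        refine le_trans ?_ (hdeg x α (hWL x hx))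
        rw [← Set.ncard_coe_finset]
        refine Set.ncard_le_ncard (fun v hv => ?_) (Set.toFinite _)
        have hv' := Finset.mem_filter.1 (Finset.mem_coe.1 hv)
        exact ⟨hv'.2, hWL v hv'.1⟩
      obtain ⟨l, hnd, hl, hord⟩ : ∃ l : List V, l.Nodup ∧ (∀ y, y ∈ l ↔ y ∈ N) ∧
          ∀ y t, (y :: t) <:+ l → Rough G L d x α → ∃ T : Finset V,
            (∀ v ∈ T, v ∈ y :: t ∧ v ≠ y ∧ G.Adj y v) ∧
            (y :: t).length ≤ (s + 1) * (T.card + 1) := by
        by_cases hR : Rough G L d x α
        · obtain ⟨l, h1, h2, h3⟩ := exists_order (A := G.Adj) (fun u v h => h.symm)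
            (r := s + 1) N.card N rfl (by
              intro S hS hind
              refine hloc x α (hWL x hx) hR S (fun u hu => ?_) fun u hu v hv hadj => ?_
              · have := Finset.mem_filter.1 (hS hu)
                exact ⟨this.2, hWL u this.1⟩
              · exact hind u hu v hv hadj.ne hadj)
          exact ⟨l, h1, h2, fun y t hyt _ => h3 y t hyt⟩
        · exact ⟨N.toList, Finset.nodup_toList _, fun y => Finset.mem_toList,
            fun y t _ h => absurd h hR⟩
      refine ⟨x, hx, l, hnd, fun y => ?_, fun y t hyt T hTW hT => ?_⟩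
      · rw [hl, hN, Finset.mem_filter]
      · have hyl : y ∈ l := hyt.subset (by simp)
        have hyN := Finset.mem_filter.1 ((hl y).1 hyl)
        have hxy : G.Adj x y := hyN.2
        have hTmem : ∀ v ∈ T, α ∈ L v ∧ (G.Adj x v ∨ G.Adj y v) := by
          intro v hv
          refine ⟨hWL v (hTW hv), ?_⟩
          rcases hT v hv with h1 | h1
          · exact Or.inl (Finset.mem_filter.1 ((hl v).1 (hyt.subset h1))).2
          · exact Or.inr h1
        by_cases hD : {w | α ∈ L w ∧ (G.Adj x w ∨ G.Adj y w)}.ncard ≤ d + 1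
        · apply hsmall
          refine le_trans ?_ hD
          rw [← Set.ncard_coe_finset]
          exact Set.ncard_le_ncard (fun v hv => hTmem v hv) (Set.toFinite _)
        · have hwide : ∀ v, (G.Adj x v ∨ G.Adj y v) → Wide G L d v α := fun v hv =>
            ⟨x, y, hxy, hWL x hx, hWL y hyN.1, hv, by omega⟩
          have hrx : Rough G L d x α := ⟨htame x hx, hwide x (Or.inr hxy.symm)⟩
          have hrT : ∀ v ∈ T, Rough G L d v α := fun v hv =>
            ⟨htame v (hTW hv), hwide v (hTmem v hv).2⟩
          obtain ⟨T', hT', hlen⟩ := hord y t hyt hrx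
          have hndt : (y :: t).Nodup := hnd.sublist hyt.sublist
          set A : Finset V := (y :: t).toFinset with hA
          set B : Finset V := W.filter fun v => G.Adj y v with hB
          have hAcard : A.card = (y :: t).length := List.toFinset_card_of_nodup hndt
          have hAd : A.card ≤ d := by
            refine le_trans (Finset.card_le_card fun v hv => ?_) hNd
            exact (hl v).1 (hyt.subset (List.mem_toFinset.1 hv))
          have hBd : B.card ≤ d := by
            refine le_trans ?_ (hdeg y α (hWL y hyN.1))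
            rw [← Set.ncard_coe_finset]
            refine Set.ncard_le_ncard (fun v hv => ?_) (Set.toFinite _)
            have hv' := Finset.mem_filter.1 (Finset.mem_coe.1 hv)
            exact ⟨hv'.2, hWL v hv'.1⟩
          have hTAB : T.card ≤ (A ∪ B).card := by
            refine Finset.card_le_card fun v hv => ?_
            rcases hT v hv with h1 | h1
            · exact Finset.mem_union_left _ (List.mem_toFinset.2 h1)
            · exact Finset.mem_union_right _ (Finset.mem_filter.2 ⟨hTW hv, h1⟩)
          have hT'AB : T'.card ≤ (A ∩ B).card := by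
            refine Finset.card_le_card fun v hv => ?_
            have h1 := hT' v hv
            have h2 : v ∈ W := (Finset.mem_filter.1 ((hl v).1 (hyt.subset h1.1))).1
            exact Finset.mem_inter.2 ⟨List.mem_toFinset.2 h1.1, Finset.mem_filter.2 ⟨h2, h1.2.2⟩⟩
          have hAB := Finset.card_union_add_card_inter A B
          have hcount : (s + 1) * T.card ≤ P := by
            rw [← hAcard] at hlen
            have h1 : T.card + T'.card ≤ A.card + B.card := by omega
            have h2 : (s + 1) * T.card + (s + 1) * T'.card ≤ (s + 1) * A.card + (s + 1) * d := by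
              nlinarith
            have h3 : A.card ≤ (s + 1) * T'.card + (s + 1) := by
              calc A.card ≤ (s + 1) * (T'.card + 1) := hlen
                _ = _ := by ring
            have h4 : (s + 1) * T.card + A.card ≤ (s + 1) * A.card + (s + 1) * d + (s + 1) := by
              omega
            have h5 : s * A.card ≤ s * d := Nat.mul_le_mul_left _ hAd
            rw [hPdef]
            nlinarith
          calc ∑ v ∈ T, w v α = ∑ v ∈ T, ((s + 1 : ℕ) : ℚ) / P :=
                Finset.sum_congr rfl fun v hv => by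
                  simp only [hw]
                  rw [if_pos (hrT v hv)]
            _ = (((s + 1) * T.card : ℕ) : ℚ) / P := by
                rw [Finset.sum_const, nsmul_eq_mul]
                push_cast
                ring
            _ ≤ 1 := by
                rw [div_le_one hPQ]
                exact_mod_cast hcount
  · intro v
    set A := (L v).filter fun α => Rough G L d v α with hA
    set B := (L v).filter fun α => ¬ Rough G L d v α with hB
    have hAB : A.card + B.card = (L v).card := Finset.card_filter_add_card_filter_not _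
    have hAj : A.card ≤ j := by
      refine le_trans ?_ (hj v)
      rw [← Set.ncard_coe_finset]
      apply le_of_eq
      congr 1
      ext α
      simp [hA]
    have hsum : ∑ α ∈ L v, w v α =
        A.card * (((s + 1 : ℕ) : ℚ) / P) + B.card * (1 / ((d : ℚ) + 1)) := by
      rw [← Finset.sum_filter_add_sum_filter_not (L v) (fun α => Rough G L d v α)]
      congr 1
      · rw [Finset.sum_congr rfl (g := fun _ => ((s + 1 : ℕ) : ℚ) / P), Finset.sum_const,
          nsmul_eq_mul]
        intro α hα
        simp only [hw]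
        rw [if_pos (Finset.mem_filter.1 hα).2]
      · rw [Finset.sum_congr rfl (g := fun _ => 1 / ((d : ℚ) + 1)), Finset.sum_const,
          nsmul_eq_mul]
        intro α hα
        simp only [hw]
        rw [if_neg (Finset.mem_filter.1 hα).2]
    have hmain : (P : ℚ) * (d + 1) + A.card * (s * d) ≤ P * (A.card + B.card) := by
      have h1 : (P : ℚ) * (d + 1) + j * (s * d) ≤ P * k := by exact_mod_cast h
      have h3 : (k : ℚ) ≤ A.card + B.card := by
        have h4 : k ≤ A.card + B.card := by
          rw [hAB]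
          exact hk v
        exact_mod_cast h4
      have h5 : (A.card : ℚ) ≤ j := by exact_mod_cast hAj
      have h6 : (A.card : ℚ) * (s * d) ≤ j * (s * d) :=
        mul_le_mul_of_nonneg_right h5 (by positivity)
      have h7 : (P : ℚ) * k ≤ P * (A.card + B.card) := mul_le_mul_of_nonneg_left h3 hPQ.le
      linarith
    have hPeq : (P : ℚ) = (2 * s + 1) * d + (s + 1) := by
      rw [hPdef]
      push_cast
      ring
    rw [hsum]
    have e : (A.card : ℚ) * (((s + 1 : ℕ) : ℚ) / P) + B.card * (1 / ((d : ℚ) + 1)) =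
        (P * (A.card + B.card) - A.card * (s * d)) / (P * (d + 1)) := by
      rw [eq_div_iff (by positivity)]
      have hP0 : (P : ℚ) ≠ 0 := hPQ.ne'
      have hd0 : (d : ℚ) + 1 ≠ 0 := hdQ.ne'
      field_simp
      push_cast
      rw [hPeq]
      ring
    rw [e, le_div_iff₀ (by positivity)]
    linarith

/-- A set closed under adjacency in the colour class in which every nonempty subset has a
simplicial vertex, for example a chordal component. -/
theorem tame_of_simplicial {V C : Type} [Fintype V] {G : SimpleGraph V} {L : V → Finset C} {d : ℕ}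
    (hdeg : ColourDegreeLE G L d) {v : V} {α : C} (K : Set V) (hv : v ∈ K)
    (hK : ∀ u ∈ K, ∀ w, G.Adj u w → α ∈ L w → w ∈ K)
    (h : ∀ W : Set V, W ⊆ K → (∀ u ∈ W, α ∈ L u) → W.Nonempty →
      ∃ x ∈ W, ∀ y ∈ W, ∀ z ∈ W, G.Adj x y → G.Adj x z → y ≠ z → G.Adj y z) :
    Tame G L d v α := by
  classical
  refine ⟨K, hv, hK, fun W hW hWL hne => ?_⟩
  obtain ⟨x, hx, hsimp⟩ := h W hW hWL hne
  refine ⟨x, hx, (univ.filter fun y => y ∈ W ∧ G.Adj x y).toList, Finset.nodup_toList _, ?_, ?_⟩
  · intro y
    simp
  · intro y t hyt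
    have hmem : ∀ u ∈ y :: t, u ∈ W ∧ G.Adj x u := fun u hu => by
      have := hyt.subset hu
      simpa using this
    have hy := hmem y (by simp)
    have hsub : {u | u ∈ W ∧ (u ∈ y :: t ∨ G.Adj y u)} ⊆
        insert y {u | G.Adj y u ∧ α ∈ L u} := by
      rintro u ⟨hu, h1 | h1⟩
      · by_cases huy : u = y
        · exact Or.inl huy
        · exact Or.inr ⟨hsimp y hy.1 u hu hy.2 (hmem u h1).2 (fun h => huy h.symm), hWL u hu⟩
      · exact Or.inr ⟨h1, hWL u hu⟩
    refine (Set.ncard_le_ncard hsub (Set.toFinite _)).trans ((Set.ncard_insert_le _ _).trans ?_)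
    have := hdeg y α (hWL y hy.1)
    omega

/-- The lower bound. -/
theorem not_sufficesR {j r d : ℕ} (hd : 2 ≤ d) (hj : 1 ≤ j) (hr : 2 ≤ r) :
    ¬ SufficesR j r d (d + 1) := by
  intro h
  apply Low.not_colourable (d := d) rfl
  have hvar : ∀ v, ∀ α ∈ Low.lst d (d + 1) v, Rough (Low.gr (d + 1)) (Low.lst d (d + 1)) d v α →
      α = Sum.inr (Low.var (d + 1) v) := by
    intro v α hα hR
    rcases Low.mem_lst.1 hα with rfl | ⟨h, rfl⟩
    · rfl
    · exact absurd hR.2 (Low.not_wide rfl v h)
  refine h _ _ (Low.gr (d + 1)) (Low.lst d (d + 1)) (Low.degree_lst rfl hd)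
    (fun v => (Low.card_lst d _ v).ge) ?_ ?_
  · intro v
    have hsub : {α | α ∈ Low.lst d (d + 1) v ∧
        Rough (Low.gr (d + 1)) (Low.lst d (d + 1)) d v α} ⊆ {Sum.inr (Low.var (d + 1) v)} := by
      rintro α ⟨h1, h2⟩
      exact hvar v α h1 h2
    refine (Set.ncard_le_ncard hsub (Set.toFinite _)).trans ?_
    rw [Set.ncard_singleton]
    exact hj
  · intro v α hα hR S hS hind
    have hα' := hvar v α hα hR
    subst hα'
    exact (Low.card_indep hS hind).trans hr

end Pool.Agent.Helper48.TH
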